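import Pool.Agent.Lib_helper10.CU.Fin

/-!
MP_c1a6e4_pr, Q1: for all rates the competing urn scheme on the cycle almost surely has a single
surviving type.
-/

open Filter MeasureTheory ProbabilityTheory

namespace Pool.Agent.Results.MP_c1a6e4_pr.SingleSurvivor

open Pool.Agent.Lib_helper10.CU

/-- For every `K`, every `N ≥ 3`, all rates `lam j > 0` and every nonzero initial configuration
`c`: almost surely the process does not explode and there are a type `j` and a finite time `t₀`
such that at every time `t ≥ t₀` some ball is present and all balls present are of type `j`. -/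
theorem result {N K : ℕ} [NeZero N] (hN : 3 ≤ N) (lam : Fin K → ℝ) (hl : ∀ j, 0 < lam j)
    (c : Cfg N K) (hc : ∃ v, c v ≠ none) :
    IsProbabilityMeasure (law lam hl c) ∧
      ∀ᵐ ω ∂(law lam hl c), Tendsto (jumpTime ω) atTop atTop ∧
        ∃ (j : Fin K) (t₀ : ℝ), ∀ t, t₀ ≤ t →
          (∃ v k, stateAt ω t v = some (j, k)) ∧
            ∀ v i k, stateAt ω t v = some (i, k) → i = j := by
  have hs : 0 < size c := by
    obtain ⟨v, hv⟩ := hc
    have h1 : 0 < cnt c v := by
      cases h : c v with
      | none => exact absurd h hv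
      | some p => obtain ⟨j, k⟩ := p; simp [cnt, h]
    exact lt_of_lt_of_le h1 (Finset.single_le_sum (f := fun v => cnt c v)
      (fun _ _ => Nat.zero_le _) (Finset.mem_univ v))
  refine ⟨law_prob lam hl c, ?_⟩
  filter_upwards [single_survivor_pr hN lam hl c hs] with ω hω
  obtain ⟨h1, j, t₀, h2⟩ := hω
  refine ⟨h1, j, t₀, fun t ht => ?_⟩
  obtain ⟨h3, h4⟩ := h2 t ht
  refine ⟨?_, h4⟩
  by_contra hcon
  apply h3
  funext v
  cases h : stateAt ω t v with
  | none => rfl
  | some p =>
    obtain ⟨i, k⟩ := p
    exact absurd ⟨v, k, by rw [h, h4 v i k h]⟩ hcon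

end Pool.Agent.Results.MP_c1a6e4_pr.SingleSurvivor
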